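import Mathlib
import Pool.Agent.H869R2.Solenoid

set_option autoImplicit false

namespace Pool.Agent.Results.MP_cdfe0d_gt.CoprimeSolenoids

open Set Topology

/-- A continuum: a nonempty compact connected Hausdorff space. -/
def IsContinuum (X : Type) [TopologicalSpace X] : Prop :=
  CompactSpace X ∧ T2Space X ∧ ConnectedSpace X

/-- A subcontinuum of a Hausdorff space: a nonempty compact connected subset. -/
def IsSubcontinuum {S : Type} [TopologicalSpace S] (K : Set S) : Prop :=
  IsCompact K ∧ IsConnected K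

/-- `X` is indecomposable: it is not the union of two proper subcontinua. -/
def IsIndecomposable (X : Type) [TopologicalSpace X] : Prop :=
  ¬ ∃ A B : Set X, IsSubcontinuum A ∧ IsSubcontinuum B ∧ A ≠ univ ∧ B ≠ univ ∧ A ∪ B = univ

/-- The set function `T`: the complement of the set of the points `p` that are interior to some
subcontinuum `K` disjoint from `A`. -/
def setT {S : Type} [TopologicalSpace S] (A : Set S) : Set S :=
  univ \ {p | ∃ K : Set S, IsSubcontinuum K ∧ p ∈ interior K ∧ K ∩ A = ∅}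

open Pool.Agent.H869R2.Solenoid

theorem indecomposable_sol {p : ℕ} (hp : 2 ≤ p) : IsIndecomposable (Sol p) := by
  rintro ⟨A, B, ⟨hA, hA'⟩, ⟨hB, hB'⟩, hAne, hBne, hAB⟩
  have hi : interior A = ∅ := by
    by_contra h
    exact hAne (eq_univ_of_interior hp hA.isClosed hA'.isPreconnected
      (nonempty_iff_ne_empty.mpr h))
  apply hBne
  have h1 : Aᶜ ⊆ B := by
    intro x hx
    have : x ∈ A ∪ B := hAB ▸ mem_univ x
    exact this.resolve_left hx
  have h2 : closure Aᶜ = univ := by
    rw [closure_compl, hi, compl_empty]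
  rw [← univ_subset_iff, ← h2]
  exact closure_minimal h1 hB.isClosed

theorem continuum_sol {p : ℕ} (hp : 0 < p) : IsContinuum (Sol p) :=
  ⟨compact_sol p, inferInstance, connected_sol hp⟩

/-- There are indecomposable (metrizable) continua `X` and `Y` and a subcontinuum `W` of `X × Y` with
nonempty interior such that `T(W) ≠ X × Y`. -/
theorem result :
    ∃ (X Y : Type) (_ : TopologicalSpace X) (_ : TopologicalSpace Y),
      IsContinuum X ∧ IsContinuum Y ∧ TopologicalSpace.MetrizableSpace X ∧ TopologicalSpace.MetrizableSpace Y ∧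
      IsIndecomposable X ∧ IsIndecomposable Y ∧
      ∃ W : Set (X × Y), IsSubcontinuum W ∧ (interior W).Nonempty ∧ setT W ≠ univ := by
  have hc2 : CompactSpace (Sol 2) := compact_sol 2
  have hc3 : CompactSpace (Sol 3) := compact_sol 3
  refine ⟨Sol 2, Sol 3, inferInstance, inferInstance, continuum_sol two_pos,
    continuum_sol three_pos, inferInstance, inferInstance, indecomposable_sol le_rfl,
    indecomposable_sol (by norm_num), ?_⟩
  have hstrip : ∀ α β : ℝ, α < β → IsSubcontinuum
      {s : Sol 2 × Sol 3 | ∃ r ∈ Icc α β, s.1.1 0 * (s.2.1 0)⁻¹ = Circle.exp r} :=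
    fun α β h => ⟨(closed_strip α β).isCompact,
      connected_strip two_pos three_pos (by norm_num) h.le⟩
  have hmem : ∀ α β r : ℝ, r ∈ Ioo α β →
      ((⟨line 2 r, line_mem two_pos r⟩, ⟨line 3 0, line_mem three_pos 0⟩) : Sol 2 × Sol 3) ∈
        interior {s : Sol 2 × Sol 3 | ∃ r ∈ Icc α β, s.1.1 0 * (s.2.1 0)⁻¹ = Circle.exp r} := by
    intro α β r hr
    apply mem_interior_strip hr
    simp [line]
  refine ⟨_, hstrip 0 1 one_pos, ⟨_, hmem 0 1 (1/2) (by norm_num)⟩, ?_⟩
  intro h
  have h1 := h ▸ mem_univ ((⟨line 2 (5/2), line_mem two_pos _⟩, ⟨line 3 0, line_mem three_pos 0⟩) :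
    Sol 2 × Sol 3)
  apply h1.2
  refine ⟨_, hstrip 2 3 (by norm_num), hmem 2 3 (5/2) (by norm_num), ?_⟩
  rw [eq_empty_iff_forall_notMem]
  rintro s ⟨⟨r, hr, h2⟩, ⟨r', hr', h3⟩⟩
  rw [h2] at h3
  have hpi := Real.pi_gt_three
  have hinj := Circle.exp_injOn_Icc (a := 0) (b := 3) (by linarith)
  have := hinj ⟨by linarith [hr.1], hr.2⟩ ⟨hr'.1, by linarith [hr'.2]⟩ h3
  linarith [hr.1, hr'.2]

end Pool.Agent.Results.MP_cdfe0d_gt.CoprimeSolenoids
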